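import Pool.Agent.Helper40.Matching.Tree
import Pool.Agent.Helper70.Matching.Basic

/-! Packet M-C3: the law of the glued configuration. -/

set_option autoImplicit false
open Finset

namespace Pool.Agent.Helper40.Matching

open Pool.Agent.Helper70.Matching

noncomputable section

/-! ### cells -/

section cells

variable {N L q : ℕ}

lemma div_iff (a q k : ℕ) (hq : 0 < q) : a / q = k ↔ k * q ≤ a ∧ a < (k + 1) * q := by
  rw [Nat.div_eq_iff hq]
  have : (k + 1) * q = k * q + q := by ring
  omega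

lemma mem_cellS (hN : N = L * q) (hq : 0 < q) (k : Fin L × Fin L) (v : Site N) :
    v ∈ cellS N q k ↔ cellOf q hN v = k := by
  unfold cellS NBox.sites blk cellOf
  rw [mem_filter, Prod.ext_iff, Fin.ext_iff, Fin.ext_iff]
  simp only [mem_univ, true_and]
  rw [div_iff _ _ _ hq, div_iff _ _ _ hq]
  tauto

lemma cellS_nonempty (hN : N = L * q) (hq : 0 < q) (k : Fin L × Fin L) :
    (cellS N q k).Nonempty := by
  have h1 : (k.1 : ℕ) * q < N := by
    rw [hN]; exact Nat.mul_lt_mul_of_pos_right k.1.2 hq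
  have h2 : (k.2 : ℕ) * q < N := by
    rw [hN]; exact Nat.mul_lt_mul_of_pos_right k.2.2 hq
  refine ⟨(⟨(k.1 : ℕ) * q, h1⟩, ⟨(k.2 : ℕ) * q, h2⟩), ?_⟩
  rw [mem_cellS hN hq]
  unfold cellOf
  rw [Prod.ext_iff, Fin.ext_iff, Fin.ext_iff]
  exact ⟨Nat.mul_div_cancel _ hq, Nat.mul_div_cancel _ hq⟩

end cells

section par

variable {V : Type} [Fintype V] [DecidableEq V]

omit [Fintype V] [DecidableEq V] in
lemma z_par (A : Finset V) (ω : V → Bool) : z (par A ω) = (cnt A ω : ZMod 2) := by
  unfold z par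
  by_cases h : Even (cnt A ω)
  · have h2 : ((cnt A ω : ℕ) : ZMod 2) = 0 := (ZMod.natCast_eq_zero_iff_even).2 h
    simp [h, h2]
  · have h2 : ((cnt A ω : ℕ) : ZMod 2) = 1 :=
      (ZMod.natCast_eq_one_iff_odd).2 (Nat.not_even_iff_odd.1 h)
    simp [h, h2]

omit [Fintype V] [DecidableEq V] in
lemma par_congr {A : Finset V} {ω ω' : V → Bool} (h : ∀ v ∈ A, ω v = ω' v) :
    par A ω = par A ω' := by
  unfold par cnt
  rw [filter_congr (fun v hv => by rw [h v hv])]

lemma isWt_bw {p : ℝ} (h0 : 0 < p) (h1 : p < 1) : IsWt (bw p : V → Bool → ℝ) := by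
  refine ⟨fun k a => ?_, fun k => ?_⟩
  · unfold bw; split_ifs <;> linarith
  · unfold bw; simp

lemma W_pos {p : ℝ} (h0 : 0 < p) (h1 : p < 1) (ω : V → Bool) : 0 < PW (bw p) ω := by
  refine prod_pos fun v _ => ?_
  unfold bw; split_ifs <;> linarith

omit [Fintype V] in
lemma exists_par {A : Finset V} (hA : A.Nonempty) (b : Bool) : ∃ ω : V → Bool, par A ω = b := by
  obtain ⟨v₀, hv₀⟩ := hA
  cases b
  · refine ⟨fun _ => false, ?_⟩
    unfold par cnt
    simp
  · refine ⟨fun v => decide (v = v₀), ?_⟩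
    unfold par cnt
    have : A.filter (fun v => decide (v = v₀) = true) = {v₀} := by
      ext v
      simp only [mem_filter, mem_singleton, decide_eq_true_eq]
      constructor
      · exact fun h => h.2
      · rintro rfl; exact ⟨hv₀, rfl⟩
    rw [this]
    simp

lemma Zp_pos {p : ℝ} (h0 : 0 < p) (h1 : p < 1) {A : Finset V} (hA : A.Nonempty) (b : Bool) :
    0 < Zp p A b := by
  unfold Zp Ex
  obtain ⟨ω, hω⟩ := exists_par hA b
  refine sum_pos' (fun u _ => ?_) ⟨ω, mem_univ _, ?_⟩
  · refine smul_nonneg (W_pos h0 h1 u).le ?_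
    simp only
    split_ifs <;> norm_num
  · simp only
    rw [if_pos hω, smul_eq_mul, mul_one]
    exact W_pos h0 h1 ω

end par

variable {N L : ℕ}

lemma sum_par {q : ℕ} (hN : N = L * q) (hq : 0 < q) (ω : Site N → Bool) :
    ∑ k : Fin L × Fin L, z (par (cellS N q k) ω) = (Nw ω : ZMod 2) := by
  simp only [z_par]
  rw [← Nat.cast_sum]
  congr 1
  unfold Nw cnt
  rw [card_eq_sum_card_fiberwise (f := cellOf q hN) (t := univ)
    (fun _ _ => Finset.mem_coe.2 (mem_univ _))]
  refine sum_congr rfl fun k _ => ?_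
  congr 1
  ext v
  simp only [mem_filter, mem_univ, true_and]
  rw [mem_cellS hN hq]
  tauto

/-- conditioned cell law -/
def gg (p : ℝ) (N : ℕ) {L : ℕ} (q : ℕ) (k : Fin L × Fin L) (b : Bool) (w : Site N → Bool) : ℝ :=
  PW (bw p) w * (if par (cellS N q k) w = b then 1 else 0) / Zp p (cellS N q k) b

lemma wU_eq (p : ℝ) (q : ℕ) (k : Fin L × Fin L) (a : Al N) :
    wU p q k a = (1 / 2) * gg p N q k false a.2.1 * gg p N q k true a.2.2 := rfl

lemma sum_gg {p : ℝ} (h0 : 0 < p) (h1 : p < 1) {q : ℕ} (hN : N = L * q) (hq : 0 < q)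
    (k : Fin L × Fin L) (b : Bool) : ∑ w, gg p N q k b w = 1 := by
  unfold gg
  rw [← sum_div]
  have hZ := Zp_pos h0 h1 (cellS_nonempty hN hq k) b
  have : ∑ w : Site N → Bool, PW (bw p) w * (if par (cellS N q k) w = b then (1 : ℝ) else 0) =
      Zp p (cellS N q k) b := rfl
  rw [this, div_self hZ.ne']

lemma gg_nonneg {p : ℝ} (h0 : 0 < p) (h1 : p < 1) {q : ℕ} (hN : N = L * q) (hq : 0 < q)
    (k : Fin L × Fin L) (b : Bool) (w : Site N → Bool) : 0 ≤ gg p N q k b w := by
  unfold gg
  have hZ := Zp_pos h0 h1 (cellS_nonempty hN hq k) b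
  refine div_nonneg (mul_nonneg (W_pos h0 h1 w).le ?_) hZ.le
  split_ifs <;> norm_num

lemma isWt_wU {p : ℝ} (h0 : 0 < p) (h1 : p < 1) {q : ℕ} (hN : N = L * q) (hq : 0 < q) :
    IsWt (fun k : Fin L × Fin L => wU (N := N) p q k) := by
  refine ⟨fun k a => ?_, fun k => ?_⟩
  · rw [wU_eq]
    exact mul_nonneg (mul_nonneg (by norm_num) (gg_nonneg h0 h1 hN hq _ _ _))
      (gg_nonneg h0 h1 hN hq _ _ _)
  · simp only [wU_eq]
    rw [Fintype.sum_prod_type]
    have : ∀ s : Bool, ∑ y : (Site N → Bool) × (Site N → Bool),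
        (1 / 2 : ℝ) * gg p N q k false y.1 * gg p N q k true y.2 = 1 / 2 := by
      intro _
      rw [Fintype.sum_prod_type]
      simp only
      have h2 : ∀ x : Site N → Bool, ∑ y : Site N → Bool,
          (1 / 2 : ℝ) * gg p N q k false x * gg p N q k true y = (1 / 2) * gg p N q k false x := by
        intro x
        rw [← mul_sum, sum_gg h0 h1 hN hq, mul_one]
      simp only [h2]
      rw [← mul_sum, sum_gg h0 h1 hN hq, mul_one]
    exact (sum_congr rfl fun s _ => this s).trans (by simp)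

/-! ### reordering the cell variables -/

/-- selected and unselected configurations -/
def eqv (N L : ℕ) : ((Fin L × Fin L → Bool) × (Fin L × Fin L → Site N → Bool) ×
    (Fin L × Fin L → Site N → Bool)) ≃ (Fin L × Fin L → Al N) where
  toFun x := fun k => (x.1 k, if bpar x.1 k then x.2.2 k else x.2.1 k,
    if bpar x.1 k then x.2.1 k else x.2.2 k)
  invFun U := (fun k => (U k).1,
    fun k => if bpar (fun k => (U k).1) k then (U k).2.2 else (U k).2.1,
    fun k => if bpar (fun k => (U k).1) k then (U k).2.1 else (U k).2.2)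
  left_inv := by
    rintro ⟨S, a, b⟩
    simp only
    refine Prod.ext rfl (Prod.ext ?_ ?_)
    · funext k
      simp only
      cases bpar S k <;> simp
    · funext k
      simp only
      cases bpar S k <;> simp
  right_inv := by
    intro U
    funext k
    simp only
    refine Prod.ext rfl (Prod.ext ?_ ?_)
    · simp only
      cases bpar (fun k => (U k).1) k <;> simp
    · simp only
      cases bpar (fun k => (U k).1) k <;> simp

/-- the glued configuration in terms of the selected configurations -/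
def gl {q : ℕ} (hN : N = L * q) (S : Fin L × Fin L → Bool) (a : Fin L × Fin L → Site N → Bool)
    (v : Site N) : Bool :=
  if par (cellS N q (cellOf q hN v)) (a (cellOf q hN v)) = bpar S (cellOf q hN v)
  then a (cellOf q hN v) v else (bpar S (cellOf q hN v) && crn q v)

lemma glue_eqv {q : ℕ} (hN : N = L * q) (S : Fin L × Fin L → Bool)
    (a b : Fin L × Fin L → Site N → Bool) : glue q hN (eqv N L (S, a, b)) = gl hN S a := by
  funext v
  unfold glue gl eqv
  simp only [Equiv.coe_fn_mk]
  cases bpar S (cellOf q hN v) <;> simp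

lemma PW_eqv {p : ℝ} {q : ℕ} (S : Fin L × Fin L → Bool)
    (a b : Fin L × Fin L → Site N → Bool) :
    PW (fun k : Fin L × Fin L => wU (N := N) p q k) (eqv N L (S, a, b)) =
      (∏ k, (1 / 2) * gg p N q k (bpar S k) (a k)) * ∏ k, gg p N q k (!bpar S k) (b k) := by
  unfold PW
  rw [← prod_mul_distrib]
  refine prod_congr rfl fun k _ => ?_
  simp only [wU_eq]
  unfold eqv
  simp only [Equiv.coe_fn_mk]
  cases bpar S k
  · simp
  · simp only [if_true, Bool.not_true]
    ring

variable {E : Type} [AddCommGroup E] [Module ℝ E]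

/-- the density for fixed edge variables -/
def HH (p : ℝ) (q : ℕ) (f : (Site N → Bool) → E) (S : Fin L × Fin L → Bool) (ω : Site N → Bool) :
    E :=
  (∏ k, (1 / 2) * (if par (cellS N q k) ω = bpar S k then 1 else 0) /
    Zp p (cellS N q k) (bpar S k)) • f ω

lemma step1 {p : ℝ} (h0 : 0 < p) (h1 : p < 1) {q : ℕ} (hN : N = L * q) (hq : 0 < q)
    (f : (Site N → Bool) → E) :
    Ex (fun k : Fin L × Fin L => wU (N := N) p q k) (fun U => f (glue q hN U)) =
      ∑ S : Fin L × Fin L → Bool, ∑ a : Fin L × Fin L → Site N → Bool,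
        (∏ k, (1 / 2) * gg p N q k (bpar S k) (a k)) • f (gl hN S a) := by
  unfold Ex
  rw [← Equiv.sum_comp (eqv N L), Fintype.sum_prod_type]
  refine sum_congr rfl fun S _ => ?_
  rw [Fintype.sum_prod_type]
  refine sum_congr rfl fun a _ => ?_
  simp only [PW_eqv, glue_eqv]
  rw [← sum_smul, ← mul_sum]
  have : ∑ b : Fin L × Fin L → Site N → Bool, ∏ k, gg p N q k (!bpar S k) (b k) = 1 := by
    have h := Finset.prod_univ_sum (fun _ : Fin L × Fin L => (univ : Finset (Site N → Bool)))
      (fun k w => gg p N q k (!bpar S k) w)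
    rw [Fintype.piFinset_univ] at h
    rw [← h]
    simp only [sum_gg h0 h1 hN hq, prod_const_one]
  rw [this, mul_one]

lemma step2 {p : ℝ} {q : ℕ} (hN : N = L * q) (hq : 0 < q) (f : (Site N → Bool) → E)
    (S : Fin L × Fin L → Bool) (a : Fin L × Fin L → Site N → Bool) :
    (∏ k, (1 / 2) * gg p N q k (bpar S k) (a k)) • f (gl hN S a) =
      (∏ k, PW (bw p) (a k)) • HH p q f S (fun v => a (cellOf q hN v) v) := by
  have hpar : ∀ k, par (cellS N q k) (fun v => a (cellOf q hN v) v) = par (cellS N q k) (a k) := by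
    intro k
    refine par_congr fun v hv => ?_
    rw [mem_cellS hN hq] at hv
    rw [hv]
  unfold HH
  rw [smul_smul, ← prod_mul_distrib]
  have e1 : ∀ k, PW (bw p) (a k) * ((1 / 2) * (if par (cellS N q k)
      (fun v => a (cellOf q hN v) v) = bpar S k then 1 else 0) / Zp p (cellS N q k) (bpar S k)) =
      (1 / 2) * gg p N q k (bpar S k) (a k) := by
    intro k
    rw [hpar]
    unfold gg
    ring
  simp only [e1]
  by_cases hall : ∀ k, par (cellS N q k) (a k) = bpar S k
  · have : gl hN S a = fun v => a (cellOf q hN v) v := by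
      funext v
      unfold gl
      rw [if_pos (hall _)]
    rw [this]
  · push Not at hall
    obtain ⟨k, hk⟩ := hall
    have : ∏ k, (1 / 2) * gg p N q k (bpar S k) (a k) = 0 := by
      refine prod_eq_zero (mem_univ k) ?_
      unfold gg
      rw [if_neg hk]
      simp
    rw [this, zero_smul, zero_smul]

lemma step3 {p : ℝ} (h0 : 0 < p) (h1 : p < 1) {q : ℕ} (hN : N = L * q)
    (H : (Site N → Bool) → E) :
    ∑ a : Fin L × Fin L → Site N → Bool,
      (∏ k, PW (bw p) (a k)) • H (fun v => a (cellOf q hN v) v) = Ex (bw p) H := by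
  have hinj : Function.Injective (fun v : Site N => (cellOf q hN v, v)) := by
    intro v v' h
    exact (Prod.ext_iff.1 h).2
  have h := Ex_comp_injective (E := E) (w := (bw p : (Fin L × Fin L) × Site N → Bool → ℝ))
    (isWt_bw h0 h1) (fun v : Site N => (cellOf q hN v, v)) hinj H
  have h2 : (fun v : Site N => (bw p : (Fin L × Fin L) × Site N → Bool → ℝ)
      (cellOf q hN v, v)) = (bw p : Site N → Bool → ℝ) := rfl
  rw [h2] at h
  rw [← h]
  unfold Ex
  rw [← Equiv.sum_comp (Equiv.curry (Fin L × Fin L) (Site N) Bool)]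
  refine sum_congr rfl fun u _ => ?_
  congr 1
  unfold PW
  exact (Fintype.prod_prod_type (fun x : (Fin L × Fin L) × Site N => bw p x (u x))).symm

lemma step4 {p : ℝ} (hL : 0 < L) {q : ℕ} (hN : N = L * q) (hq : 0 < q)
    (f : (Site N → Bool) → E) (ω : Site N → Bool) :
    ∑ S : Fin L × Fin L → Bool, HH p q f S ω =
      if Even (Nw ω) then
        (2 * ∏ k : Fin L × Fin L, (1 / 2) / Zp p (cellS N q k) (par (cellS N q k) ω)) • f ω
      else 0 := by
  unfold HH
  rw [← sum_smul]
  have e1 : ∀ S : Fin L × Fin L → Bool, ∏ k, (1 / 2) * (if par (cellS N q k) ω = bpar S k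
      then 1 else 0) / Zp p (cellS N q k) (bpar S k) =
      if ∀ k, par (cellS N q k) ω = bpar S k then
        ∏ k : Fin L × Fin L, (1 / 2) / Zp p (cellS N q k) (par (cellS N q k) ω) else 0 := by
    intro S
    split_ifs with hS
    · refine prod_congr rfl fun k _ => ?_
      rw [if_pos (hS k), ← hS k, mul_one]
    · push Not at hS
      obtain ⟨k, hk⟩ := hS
      refine prod_eq_zero (mem_univ k) ?_
      rw [if_neg hk]
      simp
  simp only [e1]
  rw [← sum_filter, sum_const, card_bpar hL (fun k => par (cellS N q k) ω), sum_par hN hq]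
  by_cases h : Even (Nw ω)
  · rw [if_pos h, if_pos ((ZMod.natCast_eq_zero_iff_even).2 h), nsmul_eq_mul]
    norm_num
  · rw [if_neg h, if_neg (fun h2 => h ((ZMod.natCast_eq_zero_iff_even).1 h2))]
    simp

theorem law : Spec_law := by
  intro E _ _ N L q hN p hq hL h0 h1
  refine ⟨isWt_wU h0 h1 hN hq, fun f => ?_⟩
  rw [step1 h0 h1 hN hq]
  simp only [step2 hN hq, step3 h0 h1 hN]
  rw [← Ex_sum]
  simp only [step4 hL hN hq]

end

end Pool.Agent.Helper40.Matching
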