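import Pool.Agent.Helper70.Matching.Specs3

/-! Packet M-C3, part 1: counting the edge variables with given cell parities. -/

set_option autoImplicit false
open Finset

namespace Pool.Agent.Helper40.Matching

open Pool.Agent.Helper70.Matching

noncomputable section

/-- Bool as an element of `ZMod 2` -/
def z (b : Bool) : ZMod 2 := if b then 1 else 0

lemma z_xor (a b : Bool) : z (xor a b) = z a + z b := by
  cases a <;> cases b <;> decide

lemma z_inj {a b : Bool} (h : z a = z b) : a = b := by
  revert h
  cases a <;> cases b <;> decide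

lemma two_eq : (2 : ZMod 2) = 0 := by decide

lemma add_self' (a : ZMod 2) : a + a = 0 := by
  rw [← two_mul, two_eq, zero_mul]

lemma xor_rc {a b c : Bool} (h : xor a c = xor b c) : a = b := by
  revert h
  cases a <;> cases b <;> cases c <;> decide

variable {L : ℕ}

lemma ext_of_le_left (S : Fin L × Fin L → Bool) {x y : ℕ} (h : L ≤ x) : ext S x y = false := by
  unfold Pool.Agent.Helper70.Matching.ext
  rw [dif_neg]
  rintro ⟨⟨h1, -⟩, -⟩
  omega

lemma ext_of_le_right (S : Fin L × Fin L → Bool) {x y : ℕ} (h : L ≤ y) : ext S x y = false := by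
  unfold Pool.Agent.Helper70.Matching.ext
  rw [dif_neg]
  rintro ⟨⟨-, h1⟩, -⟩
  omega

lemma ext_zero (S : Fin L × Fin L → Bool) : ext S 0 0 = false := by
  unfold Pool.Agent.Helper70.Matching.ext
  rw [dif_neg]
  rintro ⟨-, h⟩
  exact h ⟨rfl, rfl⟩

lemma ext_coe (S : Fin L × Fin L → Bool) (k : Fin L × Fin L)
    (h : ¬ ((k.1 : ℕ) = 0 ∧ (k.2 : ℕ) = 0)) : ext S k.1 k.2 = S k := by
  unfold Pool.Agent.Helper70.Matching.ext
  rw [dif_pos ⟨⟨k.1.2, k.2.2⟩, h⟩]

/-- the parities of the cells sum to zero -/
lemma sum_bpar (hL : 0 < L) (S : Fin L × Fin L → Bool) : ∑ k, z (bpar S k) = 0 := by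
  have h1 : ∀ k : Fin L × Fin L, z (bpar S k) = (fun x y : ℕ => z (ext S x y) +
      (z (ext S x (y + 1)) + if y = 0 then z (ext S (x + 1) 0) else 0)) (k.1 : ℕ) (k.2 : ℕ) := by
    intro k
    unfold bpar
    rw [z_xor, z_xor]
    by_cases h : (k.2 : ℕ) = 0
    · simp [h]
    · simp [h, z]
  simp only [h1]
  rw [Fintype.sum_prod_type]
  simp only
  have h2 : ∀ x : ℕ, ∑ y : Fin L, (z (ext S x y) + (z (ext S x ((y : ℕ) + 1)) +
      if (y : ℕ) = 0 then z (ext S (x + 1) 0) else 0)) =
      z (ext S (x + 1) 0) - z (ext S x 0) := by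
    intro x
    rw [Fin.sum_univ_eq_sum_range (fun y : ℕ => z (ext S x y) + (z (ext S x (y + 1)) +
      if y = 0 then z (ext S (x + 1) 0) else 0)) L]
    rw [sum_add_distrib, sum_add_distrib]
    have e1 : ∑ y ∈ range L, z (ext S x (y + 1)) =
        ∑ y ∈ range L, z (ext S x y) - z (ext S x 0) := by
      have a1 := sum_range_succ' (fun y => z (ext S x y)) L
      have a2 := sum_range_succ (fun y => z (ext S x y)) L
      rw [a2] at a1
      rw [ext_of_le_right S le_rfl] at a1
      simp only [z] at a1 ⊢
      simp only [Bool.false_eq_true, if_false, add_zero] at a1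
      rw [a1]; ring
    have e2 : ∑ y ∈ range L, (if y = 0 then z (ext S (x + 1) 0) else 0) = z (ext S (x + 1) 0) := by
      rw [sum_ite_eq' (range L) 0]
      simp [hL]
    rw [e1, e2]
    have := add_self' (∑ y ∈ range L, z (ext S x y))
    linear_combination this
  simp only [h2]
  rw [Fin.sum_univ_eq_sum_range (fun x : ℕ => z (ext S (x + 1) 0) - z (ext S x 0)) L,
    sum_range_sub (fun x => z (ext S x 0)), ext_of_le_left S le_rfl, ext_zero, sub_self]

/-- the parities determine the edge variables -/
lemma ext_eq_of_bpar {S S' : Fin L × Fin L → Bool} (h : ∀ k, bpar S k = bpar S' k) :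
    ∀ x y, ext S x y = ext S' x y := by
  have hy : ∀ d y, 1 ≤ y → y + d = L → ∀ x, ext S x y = ext S' x y := by
    intro d
    induction d with
    | zero =>
      intro y _ hy x
      rw [ext_of_le_right S (by omega), ext_of_le_right S' (by omega)]
    | succ d ih =>
      intro y hy1 hy x
      by_cases hx : x < L
      · have h1 := h (⟨x, hx⟩, ⟨y, by omega⟩)
        unfold bpar at h1
        simp only at h1
        rw [if_neg (by omega), if_neg (by omega), Bool.xor_false, Bool.xor_false,
          ih (y + 1) (by omega) (by omega) x] at h1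
        exact xor_rc h1
      · rw [ext_of_le_left S (not_lt.1 hx), ext_of_le_left S' (not_lt.1 hx)]
  have hy' : ∀ x y, 1 ≤ y → ext S x y = ext S' x y := by
    intro x y hy1
    by_cases hl : y ≤ L
    · exact hy (L - y) y hy1 (by omega) x
    · rw [ext_of_le_right S (by omega), ext_of_le_right S' (by omega)]
  have hx : ∀ d x, x + d = L → ext S x 0 = ext S' x 0 := by
    intro d
    induction d with
    | zero =>
      intro x hx
      rw [ext_of_le_left S (by omega), ext_of_le_left S' (by omega)]
    | succ d ih =>
      intro x hx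
      have h1 := h (⟨x, by omega⟩, ⟨0, by omega⟩)
      unfold bpar at h1
      simp only [if_true] at h1
      rw [ih (x + 1) (by omega), hy' x (0 + 1) (by omega)] at h1
      exact xor_rc h1
  intro x y
  by_cases hy0 : 1 ≤ y
  · exact hy' x y hy0
  · have : y = 0 := by omega
    subst this
    by_cases hl : x ≤ L
    · exact hx (L - x) x (by omega)
    · rw [ext_of_le_left S (by omega), ext_of_le_left S' (by omega)]

/-- the root cell -/
def rt (hL : 0 < L) : Fin L × Fin L := (⟨0, hL⟩, ⟨0, hL⟩)

lemma ne_rt (hL : 0 < L) {k : Fin L × Fin L} (h : k ≠ rt hL) :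
    ¬ ((k.1 : ℕ) = 0 ∧ (k.2 : ℕ) = 0) := by
  rintro ⟨h1, h2⟩
  apply h
  ext
  · exact h1
  · exact h2

/-- parities off the root, and the free variable at the root -/
def Phi (hL : 0 < L) (S : Fin L × Fin L → Bool) : Fin L × Fin L → Bool :=
  fun k => if k = rt hL then S k else bpar S k

lemma bpar_eq_of_off (hL : 0 < L) {β β' : Fin L × Fin L → Bool} (h0 : ∑ k, z (β k) = ∑ k, z (β' k))
    (h : ∀ k, k ≠ rt hL → β k = β' k) : ∀ k, β k = β' k := by
  intro k
  by_cases hk : k = rt hL
  · rw [← Finset.add_sum_erase univ (fun k => z (β k)) (mem_univ (rt hL)),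
      ← Finset.add_sum_erase univ (fun k => z (β' k)) (mem_univ (rt hL))] at h0
    have h1 : ∑ k ∈ univ.erase (rt hL), z (β k) = ∑ k ∈ univ.erase (rt hL), z (β' k) := by
      refine sum_congr rfl fun k hk => ?_
      rw [h k (ne_of_mem_erase hk)]
    rw [h1] at h0
    rw [hk]
    exact z_inj (add_right_cancel h0)
  · exact h k hk

lemma Phi_inj (hL : 0 < L) : Function.Injective (Phi hL) := by
  intro S S' h
  have h1 : ∀ k, k ≠ rt hL → bpar S k = bpar S' k := by
    intro k hk
    have := congrFun h k
    simpa [Phi, hk] using this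
  have h2 := bpar_eq_of_off hL ((sum_bpar hL S).trans (sum_bpar hL S').symm) h1
  have h3 := ext_eq_of_bpar h2
  funext k
  by_cases hk : k = rt hL
  · have := congrFun h k
    simpa [Phi, hk] using this
  · rw [← ext_coe S k (ne_rt hL hk), ← ext_coe S' k (ne_rt hL hk), h3]

lemma Phi_surj (hL : 0 < L) : Function.Surjective (Phi hL) :=
  Finite.surjective_of_injective (Phi_inj hL)

/-- **Counting**: the number of edge variables with given cell parities. -/
lemma card_bpar (hL : 0 < L) (β : Fin L × Fin L → Bool) :
    (univ.filter (fun S : Fin L × Fin L → Bool => ∀ k, β k = bpar S k)).card =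
      if ∑ k, z (β k) = 0 then 2 else 0 := by
  split_ifs with h
  · obtain ⟨S₀, h₀⟩ := Phi_surj hL (Function.update β (rt hL) false)
    obtain ⟨S₁, h₁⟩ := Phi_surj hL (Function.update β (rt hL) true)
    have hb : ∀ (S : Fin L × Fin L → Bool) (c : Bool), Phi hL S = Function.update β (rt hL) c →
        ∀ k, β k = bpar S k := by
      intro S c hS
      apply bpar_eq_of_off hL (by rw [h, sum_bpar hL])
      intro k hk
      have := congrFun hS k
      rw [Function.update_of_ne hk] at this
      simpa [Phi, hk] using this.symm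
    have hne : S₀ ≠ S₁ := by
      rintro rfl
      rw [h₀] at h₁
      have := congrFun h₁ (rt hL)
      simp at this
    have : univ.filter (fun S : Fin L × Fin L → Bool => ∀ k, β k = bpar S k) = {S₀, S₁} := by
      ext S
      simp only [mem_filter, mem_univ, true_and, mem_insert, mem_singleton]
      constructor
      · intro hS
        have h5 : Phi hL S = Function.update β (rt hL) (S (rt hL)) := by
          funext k
          by_cases hk : k = rt hL
          · simp [Phi, hk]
          · rw [Function.update_of_ne hk, hS k]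
            simp [Phi, hk]
        cases hc : S (rt hL)
        · left
          apply Phi_inj hL
          rw [h5, h₀, hc]
        · right
          apply Phi_inj hL
          rw [h5, h₁, hc]
      · rintro (rfl | rfl)
        · exact hb _ _ h₀
        · exact hb _ _ h₁
    rw [this, card_pair hne]
  · rw [card_eq_zero, filter_eq_empty_iff]
    intro S _ hS
    apply h
    rw [← sum_bpar hL S]
    exact sum_congr rfl fun k _ => by rw [hS k]

end

end Pool.Agent.Helper40.Matching
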